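import Mathlib
import Pool.Agent.H.MP_155eb7_gt.Prod

set_option autoImplicit false

namespace Pool.Agent.Results.MP_155eb7_gt.Prod

open Pool.Agent.H.MP_155eb7_gt TopologicalSpace

theorem result : ∃ (Y Z : Type) (_ : TopologicalSpace Y) (_ : TopologicalSpace Z),
    T2Space Y ∧ T2Space Z ∧
    (∀ y : Y, ¬ IsOpen ({y} : Set Y)) ∧ (∀ z : Z, ¬ IsOpen ({z} : Set Z)) ∧
    (∀ B : Set (Set Y), IsTopologicalBasis B → ∃ B₀ B₁ : Set (Set Y), B₀ ∪ B₁ = B ∧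
      Disjoint B₀ B₁ ∧ IsTopologicalBasis B₀ ∧ IsTopologicalBasis B₁) ∧
    (∀ B : Set (Set Z), IsTopologicalBasis B → ∃ B₀ B₁ : Set (Set Z), B₀ ∪ B₁ = B ∧
      Disjoint B₀ B₁ ∧ IsTopologicalBasis B₀ ∧ IsTopologicalBasis B₁) ∧
    ∃ B : Set (Set (Y × Z)), IsTopologicalBasis B ∧
      ∀ B₀ B₁ : Set (Set (Y × Z)), B₀ ∪ B₁ = B → Disjoint B₀ B₁ →
        ¬ (IsTopologicalBasis B₀ ∧ IsTopologicalBasis B₁) :=
  ⟨K, X0, inferInstance, inferInstance, inferInstance, inferInstance, noisoK, noiso0,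
    fun _ hB => compact_res hB noisoK, tree_res, BP, basisP,
    fun B0 B1 h hd => not_resP B0 B1 h.le hd⟩

end Pool.Agent.Results.MP_155eb7_gt.Prod
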